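import Pool.Agent.H13.CEV.Wedge

/-!
# The Clemens–Ein–Voisin degree bound
-/

namespace Pool.Agent.H13.CEV

open Polynomial

section

variable {K : Type*} [Field K] {N d e : ℕ} {F : MvPolynomial (Fin N) K}
  {f : Fin N → K[X]} {h : (Fin N →₀ ℕ) → Fin N → K[X]}

/-- `e f - t f'` -/
noncomputable def R1 (e : ℕ) (f : Fin N → K[X]) (i : Fin N) : K[X] :=
  C (e : K) * f i - X * derivative (f i)

/-- `f'` -/
noncomputable def R2 (f : Fin N → K[X]) (i : Fin N) : K[X] := derivative (f i)

lemma R1_degree (he : 1 ≤ e) (hdeg : ∀ i, (f i).natDegree ≤ e) (i : Fin N) :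
    (R1 e f i).natDegree ≤ e - 1 := by
  rw [natDegree_le_iff_coeff_eq_zero]
  intro n hn
  obtain ⟨m, rfl⟩ : ∃ m, n = m + 1 := ⟨n - 1, by omega⟩
  rw [R1, coeff_sub, coeff_C_mul, coeff_X_mul, coeff_derivative]
  rcases Nat.lt_or_ge e (m + 1) with h1 | h1
  · rw [coeff_eq_zero_of_natDegree_lt (lt_of_le_of_lt (hdeg i) h1)]; ring
  · have : e = m + 1 := by omega
    rw [this]; push_cast; ring

lemma R2_degree (hdeg : ∀ i, (f i).natDegree ≤ e) (i : Fin N) :
    (R2 f i).natDegree ≤ e - 1 := by
  refine (natDegree_derivative_le _).trans ?_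
  have := hdeg i
  omega

lemma indep_poly [CharZero K] (he : 1 ≤ e) (hprim : ∀ p : K[X], (∀ i, p ∣ f i) → IsUnit p)
    (i₀ : Fin N) (hi₀ : (f i₀).natDegree = e) (a b : K[X])
    (hab : ∀ i, a * R1 e f i + b * R2 f i = 0) : a = 0 ∧ b = 0 := by
  have hfi₀ : f i₀ ≠ 0 := by
    intro h0; rw [h0, natDegree_zero] at hi₀; omega
  have hdi₀ : derivative (f i₀) ≠ 0 := by
    intro h0
    have := (Polynomial.derivative_eq_zero (R := K)).mp h0
    omega
  have hrel : ∀ i, (C (e : K) * a) * f i = (a * X - b) * derivative (f i) := by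
    intro i
    have h3 := hab i
    simp only [R1, R2] at h3
    linear_combination h3
  by_contra hcon
  have heK : (e : K) ≠ 0 := by exact_mod_cast (by omega : e ≠ 0)
  have hβ : a * X - b ≠ 0 := by
    intro h0
    have h1 := hrel i₀
    rw [h0, zero_mul] at h1
    have h2 : a = 0 := by
      rcases mul_eq_zero.mp h1 with h | h
      · rcases mul_eq_zero.mp h with h | h
        · rw [C_eq_zero] at h
          exact absurd h heK
        · exact h
      · exact absurd h hfi₀
    apply hcon
    refine ⟨h2, ?_⟩
    rw [h2, zero_mul, zero_sub, neg_eq_zero] at h0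
    exact h0
  obtain ⟨p, r, c, hpr, h1, h2⟩ := UniqueFactorizationMonoid.exists_reduced_factors'
    (C (e : K) * a) (a * X - b) hβ
  have hc : c ≠ 0 := by rintro rfl; rw [zero_mul] at h2; exact hβ h2.symm
  have hr : r ≠ 0 := by rintro rfl; rw [mul_zero] at h2; exact hβ h2.symm
  have hrel2 : ∀ i, p * f i = r * derivative (f i) := by
    intro i
    apply mul_left_cancel₀ hc
    have := hrel i
    rw [← h1, ← h2] at this
    linear_combination this
  have hru : IsUnit r := by
    apply hprim
    intro i
    have h3 : r ∣ p * f i := by rw [hrel2]; exact dvd_mul_right _ _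
    exact hpr.symm.dvd_of_dvd_mul_left h3
  have hr0 : r.natDegree = 0 := natDegree_eq_zero_of_isUnit hru
  have h4 := hrel2 i₀
  by_cases hp : p = 0
  · rw [hp, zero_mul] at h4
    rcases mul_eq_zero.mp h4.symm with h | h
    · exact hr h
    · exact hdi₀ h
  · have h5 := congrArg natDegree h4
    rw [natDegree_mul hp hfi₀, natDegree_mul hr hdi₀, hr0, hi₀] at h5
    have h6 := natDegree_derivative_le (f i₀)
    omega

/-- `f` and `f'` are independent -/
lemma indep [CharZero K] (he : 1 ≤ e) (hprim : ∀ p : K[X], (∀ i, p ∣ f i) → IsUnit p) (i₀ : Fin N)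
    (hi₀ : (f i₀).natDegree = e) (x y : FractionRing K[X])
    (hxy : x • io (R1 e f) + y • io (R2 f) = 0) : x = 0 ∧ y = 0 := by
  have hinj : Function.Injective (algebraMap K[X] (FractionRing K[X])) :=
    IsFractionRing.injective K[X] (FractionRing K[X])
  have hne : ∀ q : K[X], q ∈ nonZeroDivisors K[X] → algebraMap K[X] (FractionRing K[X]) q ≠ 0 := by
    intro q hq h0
    exact (nonZeroDivisors.ne_zero hq) (hinj (by rw [h0, map_zero]))
  obtain ⟨a, q1, hq1, hx⟩ := IsFractionRing.div_surjective (A := K[X]) x
  obtain ⟨b, q2, hq2, hy⟩ := IsFractionRing.div_surjective (A := K[X]) y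
  have h1 := hne q1 hq1
  have h2 := hne q2 hq2
  have hx' : x * algebraMap K[X] (FractionRing K[X]) q1 = algebraMap K[X] (FractionRing K[X]) a := by
    rw [← hx, div_mul_cancel₀ _ h1]
  have hy' : y * algebraMap K[X] (FractionRing K[X]) q2 = algebraMap K[X] (FractionRing K[X]) b := by
    rw [← hy, div_mul_cancel₀ _ h2]
  have h3 := indep_poly he hprim i₀ hi₀ (a * q2) (b * q1) (by
    intro i
    apply hinj
    have h4 := congrFun hxy i
    simp only [Pi.add_apply, Pi.smul_apply, smul_eq_mul, io, Pi.zero_apply] at h4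
    rw [map_add, map_mul, map_mul, map_mul, map_mul, ← hx', ← hy', map_zero]
    linear_combination (algebraMap K[X] (FractionRing K[X]) q1
      * algebraMap K[X] (FractionRing K[X]) q2) * h4)
  have ha : a = 0 := (mul_eq_zero.mp h3.1).resolve_right (nonZeroDivisors.ne_zero hq2)
  have hb : b = 0 := (mul_eq_zero.mp h3.2).resolve_right (nonZeroDivisors.ne_zero hq1)
  constructor
  · rw [← hx, ha, map_zero, zero_div]
  · rw [← hy, hb, map_zero, zero_div]

/-- the vectors `u` -/
noncomputable def U (F : MvPolynomial (Fin N) K) (f : Fin N → K[X])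
    (h : (Fin N →₀ ℕ) → Fin N → K[X]) (l m : Fin N) (k : Fin N) : K[X] :=
  (if k = m then f l else 0)
    + ∑ α ∈ (MvPolynomial.X l * MvPolynomial.pderiv m F).support,
      C (MvPolynomial.coeff α (MvPolynomial.X l * MvPolynomial.pderiv m F)) * h α k

/-- the vectors `s` -/
noncomputable def Sv (f : Fin N → K[X]) (h : (Fin N →₀ ℕ) → Fin N → K[X])
    (β : Fin N →₀ ℕ) (i j : Fin N) (k : Fin N) : K[X] :=
  f j * h (β + Finsupp.single i 1) k - f i * h (β + Finsupp.single j 1) k

/-- all vectors -/
def Tset (F : MvPolynomial (Fin N) K) (f : Fin N → K[X])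
    (h : (Fin N →₀ ℕ) → Fin N → K[X]) (d e : ℕ) : Set (Fin N → K[X]) :=
  {y | y = R1 e f ∨ y = R2 f ∨ (∃ l m, y = U F f h l m) ∨
    (∃ (β : Fin N →₀ ℕ) (i j : Fin N), (∑ i, β i) + 1 = d ∧ y = Sv f h β i j)}

lemma supp_deg (hF : F.IsHomogeneous d) (hd : 1 ≤ d) (l m : Fin N) {α : Fin N →₀ ℕ}
    (hα : α ∈ (MvPolynomial.X l * MvPolynomial.pderiv m F).support) : ∑ i, α i = d := by
  have h1 : (MvPolynomial.pderiv m F).IsHomogeneous (d - 1) := hF.pderiv
  have h2 := (MvPolynomial.isHomogeneous_X K l).mul h1
  have h3 : 1 + (d - 1) = d := by omega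
  rw [h3] at h2
  have h4 := h2 (MvPolynomial.mem_support_iff.mp hα)
  rw [← h4, Finsupp.weight_apply, Finsupp.sum_fintype]
  · simp
  · simp

lemma add_single_sum (β : Fin N →₀ ℕ) (i : Fin N) :
    ∑ j, (β + Finsupp.single i 1 : Fin N →₀ ℕ) j = (∑ j, β j) + 1 := by
  simp only [Finsupp.add_apply, Finset.sum_add_distrib]
  rw [single_sum]

lemma add_single_prod (f : Fin N → K[X]) (β : Fin N →₀ ℕ) (k : Fin N) :
    ∏ j, f j ^ ((β + Finsupp.single k 1 : Fin N →₀ ℕ) j) = (∏ j, f j ^ β j) * f k := by
  simp only [Finsupp.add_apply, pow_add, Finset.prod_mul_distrib]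
  rw [single_prod, pow_one]

/-- the gradient annihilates all vectors -/
lemma gr_annih (hF : F.IsHomogeneous d) (hd : 1 ≤ d) (hFf : MvPolynomial.aeval f F = 0)
    (hrel : ∀ α : Fin N →₀ ℕ, ∑ i, α i = d → (∏ i, f i ^ α i) + ∑ i, Gr F f i * h α i = 0)
    (y : Fin N → K[X]) (hy : y ∈ Tset F f h d e) : ∑ i, Gr F f i * y i = 0 := by
  have heuler : ∑ i, Gr F f i * f i = 0 := by
    have h1 := congrArg (MvPolynomial.aeval f) hF.sum_X_mul_pderiv
    rw [map_sum, map_nsmul, hFf, smul_zero] at h1
    rw [← h1]
    apply Finset.sum_congr rfl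
    intro i _
    rw [map_mul, MvPolynomial.aeval_X, Gr, mul_comm]
  have hder : ∑ i, Gr F f i * derivative (f i) = 0 := by
    have h1 := chain_rule (C : K →+* K[X]) f (derivative (R := K)).toAddMonoidHom
      (fun a b => by
        show derivative (a * b) = a * derivative b + b * derivative a
        rw [derivative_mul]; ring) F
    have h2 : MvPolynomial.eval₂ (C : K →+* K[X]) f F = 0 := hFf
    rw [h2, map_zero] at h1
    have h3 : ∑ α ∈ F.support, (derivative (R := K)).toAddMonoidHom (C (MvPolynomial.coeff α F))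
        * ∏ i, f i ^ α i = 0 := by
      apply Finset.sum_eq_zero
      intro α _
      show derivative (C (MvPolynomial.coeff α F)) * ∏ i, f i ^ α i = 0
      rw [derivative_C, zero_mul]
    rw [h3, zero_add] at h1
    rw [h1]
    rfl
  rcases hy with rfl | rfl | ⟨l, m, rfl⟩ | ⟨β, i, j, hβ, rfl⟩
  · simp only [R1]
    have : ∑ i, Gr F f i * (C (e : K) * f i - X * derivative (f i))
        = C (e : K) * ∑ i, Gr F f i * f i - X * ∑ i, Gr F f i * derivative (f i) := by
      rw [Finset.mul_sum, Finset.mul_sum, ← Finset.sum_sub_distrib]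
      apply Finset.sum_congr rfl
      intro i _
      ring
    rw [this, heuler, hder]; ring
  · exact hder
  · simp only [U]
    have h1 : ∑ i, Gr F f i * ((if i = m then f l else 0)
        + ∑ α ∈ (MvPolynomial.X l * MvPolynomial.pderiv m F).support,
          C (MvPolynomial.coeff α (MvPolynomial.X l * MvPolynomial.pderiv m F)) * h α i)
        = Gr F f m * f l + ∑ α ∈ (MvPolynomial.X l * MvPolynomial.pderiv m F).support,
          C (MvPolynomial.coeff α (MvPolynomial.X l * MvPolynomial.pderiv m F)) *
            ∑ i, Gr F f i * h α i := by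
      simp only [mul_add, Finset.sum_add_distrib]
      congr 1
      · simp
      · simp only [Finset.mul_sum]
        rw [Finset.sum_comm]
        apply Finset.sum_congr rfl
        intro α _
        apply Finset.sum_congr rfl
        intro i _
        ring
    rw [h1]
    have h2 : ∑ α ∈ (MvPolynomial.X l * MvPolynomial.pderiv m F).support,
          C (MvPolynomial.coeff α (MvPolynomial.X l * MvPolynomial.pderiv m F)) *
            ∑ i, Gr F f i * h α i
        = - MvPolynomial.aeval f (MvPolynomial.X l * MvPolynomial.pderiv m F) := by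
      rw [MvPolynomial.aeval_def, MvPolynomial.eval₂_eq', ← Finset.sum_neg_distrib]
      apply Finset.sum_congr rfl
      intro α hα
      have h3 := hrel α (supp_deg hF hd l m hα)
      have h4 : ∑ i, Gr F f i * h α i = - ∏ i, f i ^ α i := by linear_combination h3
      rw [h4, Polynomial.algebraMap_eq]
      ring
    rw [h2, map_mul, MvPolynomial.aeval_X, Gr]
    ring
  · simp only [Sv]
    have h1 : ∑ k, Gr F f k * (f j * h (β + Finsupp.single i 1) k - f i * h (β + Finsupp.single j 1) k)
        = f j * ∑ k, Gr F f k * h (β + Finsupp.single i 1) k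
          - f i * ∑ k, Gr F f k * h (β + Finsupp.single j 1) k := by
      rw [Finset.mul_sum, Finset.mul_sum, ← Finset.sum_sub_distrib]
      apply Finset.sum_congr rfl
      intro k _
      ring
    rw [h1]
    have h2 := hrel (β + Finsupp.single i 1) (by rw [add_single_sum, hβ])
    have h3 := hrel (β + Finsupp.single j 1) (by rw [add_single_sum, hβ])
    rw [add_single_prod] at h2 h3
    linear_combination f j * h2 - f i * h3

theorem degree_bound [CharZero K] (hN : 3 ≤ N) (he : 1 ≤ e) (hd : 1 ≤ d) (hF : F.IsHomogeneous d)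
    (hprim : ∀ p : K[X], (∀ i, p ∣ f i) → IsUnit p) (hdeg : ∀ i, (f i).natDegree ≤ e)
    (i₀ : Fin N) (hi₀ : (f i₀).natDegree = e) (hFf : MvPolynomial.aeval f F = 0)
    (hh : ∀ α : Fin N →₀ ℕ, ∑ i, α i = d → ∀ i, (h α i).natDegree ≤ e)
    (hrel : ∀ α : Fin N →₀ ℕ, ∑ i, α i = d → (∏ i, f i ^ α i) + ∑ i, Gr F f i * h α i = 0) :
    d + 4 ≤ 2 * N := by
  have hinj : Function.Injective (algebraMap K[X] (FractionRing K[X])) :=
    IsFractionRing.injective K[X] (FractionRing K[X])
  have hGprim := gr_prim hprim hrel
  have hG0 : Gr F f ≠ 0 := by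
    intro h0
    have := hGprim 0 (fun i => by rw [h0]; exact dvd_zero _)
    exact not_isUnit_zero this
  have hfi₀ : f i₀ ≠ 0 := by
    intro h0; rw [h0, natDegree_zero] at hi₀; omega
  obtain ⟨c, hc0, hcdeg, μ, hμ⟩ := exists_minor hN (Tset F f h d e) (R1 e f) (R2 f)
    (Or.inl rfl) (Or.inr (Or.inl rfl)) (a := e - 1) (b := 2 * e)
    (R1_degree he hdeg) (R2_degree hdeg)
    (by
      rintro y (rfl | rfl | ⟨l, m, rfl⟩ | ⟨β, i, j, hβ, rfl⟩) k
      · exact (R1_degree he hdeg k).trans (by omega)
      · exact (R2_degree hdeg k).trans (by omega)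
      · unfold U
        apply (natDegree_add_le _ _).trans
        apply max_le
        · split_ifs
          · exact (hdeg l).trans (by omega)
          · simp
        · apply natDegree_sum_le_of_forall_le
          intro α hα
          refine (natDegree_C_mul_le _ _).trans ?_
          exact (hh α (supp_deg hF hd l m hα) k).trans (by omega)
      · unfold Sv
        apply (natDegree_sub_le _ _).trans
        apply max_le
        · refine natDegree_mul_le.trans ?_
          have h1 := hdeg j
          have h2 := hh (β + Finsupp.single i 1) (by rw [add_single_sum, hβ]) k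
          omega
        · refine natDegree_mul_le.trans ?_
          have h1 := hdeg i
          have h2 := hh (β + Finsupp.single j 1) (by rw [add_single_sum, hβ]) k
          omega)
    (indep he hprim i₀ hi₀) (Gr F f) hG0 (fun y hy => gr_annih hF hd hFf hrel y hy)
    (by
      intro lam hlam
      have h1 := annih (K := K) (Q := FractionRing K[X]) hd (io f) (fun α => io (h α)) F hF lam i₀
        (fun h0 => hfi₀ (hinj (by rw [map_zero]; exact h0)))
        (by
          intro m
          have h2 := hlam (U F f h i₀ m) (Or.inr (Or.inr (Or.inl ⟨i₀, m, rfl⟩)))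
          rw [← h2]
          simp only [U, map_add, map_sum, map_mul, mul_add, Finset.sum_add_distrib]
          congr 1
          · rw [Finset.sum_eq_single m]
            · simp [io, mul_comm]
            · intro k _ hk
              simp [hk]
            · simp
          · simp only [Finset.mul_sum]
            rw [Finset.sum_comm]
            apply Finset.sum_congr rfl
            intro k _
            apply Finset.sum_congr rfl
            intro α _
            simp only [io]
            rw [IsScalarTower.algebraMap_apply K K[X] (FractionRing K[X]), Polynomial.algebraMap_eq]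
            ring)
        (by
          intro β hβ i j
          have h2 := hlam (Sv f h β i j) (Or.inr (Or.inr (Or.inr ⟨β, i, j, hβ, rfl⟩)))
          simp only [Sv, map_sub, map_mul, mul_sub, Finset.sum_sub_distrib] at h2
          rw [Finset.mul_sum, Finset.mul_sum]
          rw [sub_eq_zero] at h2
          calc _ = ∑ x, lam x * (algebraMap K[X] (FractionRing K[X]) (f j) *
                algebraMap K[X] (FractionRing K[X]) (h (β + Finsupp.single i 1) x)) := by
                apply Finset.sum_congr rfl
                intro k _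
                simp only [io]; ring
            _ = _ := h2
            _ = _ := by
                apply Finset.sum_congr rfl
                intro k _
                simp only [io]; ring)
      obtain ⟨μ, hμ⟩ := h1
      refine ⟨μ, fun i => ?_⟩
      rw [hμ i]
      congr 1
      rw [Gr]
      have h3 := MvPolynomial.aeval_algebraMap_apply (A := K[X]) (FractionRing K[X]) f
        (MvPolynomial.pderiv i F)
      exact h3)
  -- compare degrees
  obtain ⟨j, hj⟩ := gr_degree (F := F) (f := f) (h := h) he hd i₀ hi₀ hh hrel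
  obtain ⟨a, b, hab, hz⟩ := IsFractionRing.exists_reduced_fraction K[X] μ
  have hb0 : (b : K[X]) ≠ 0 := nonZeroDivisors.ne_zero b.2
  have hcG : ∀ i, (b : K[X]) * c i = a * Gr F f i := by
    intro i
    apply hinj
    rw [map_mul, map_mul, hμ i, ← hz]
    have := IsLocalization.mk'_spec (FractionRing K[X]) a b
    calc algebraMap K[X] (FractionRing K[X]) b * (IsLocalization.mk' (FractionRing K[X]) a b
          * algebraMap K[X] (FractionRing K[X]) (Gr F f i))
        = (IsLocalization.mk' (FractionRing K[X]) a b * algebraMap K[X] (FractionRing K[X]) b)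
          * algebraMap K[X] (FractionRing K[X]) (Gr F f i) := by ring
      _ = _ := by rw [this]
  have hbu : IsUnit (b : K[X]) := by
    apply hGprim
    intro i
    have h1 : (b : K[X]) ∣ a * Gr F f i := by rw [← hcG]; exact dvd_mul_right _ _
    exact hab.symm.dvd_of_dvd_mul_left h1
  have ha0 : a ≠ 0 := by
    rintro rfl
    apply hc0
    funext i
    have := hcG i
    rw [zero_mul] at this
    exact (mul_eq_zero.mp this).resolve_left hb0
  have hdegc : (Gr F f j).natDegree ≤ (c j).natDegree := by
    by_cases hGj : Gr F f j = 0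
    · rw [hGj, natDegree_zero]; exact Nat.zero_le _
    · have hcj : c j ≠ 0 := by
        intro h0
        have := hcG j
        rw [h0, mul_zero] at this
        exact (mul_ne_zero ha0 hGj) this.symm
      have h1 := congrArg natDegree (hcG j)
      rw [natDegree_mul hb0 hcj, natDegree_mul ha0 hGj, natDegree_eq_zero_of_isUnit hbu] at h1
      omega
  have hfin := hj.trans (hdegc.trans (hcdeg j))
  -- arithmetic
  obtain ⟨N', rfl⟩ : ∃ N', N = N' + 3 := ⟨N - 3, by omega⟩
  obtain ⟨d', rfl⟩ : ∃ d', d = d' + 1 := ⟨d - 1, by omega⟩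
  obtain ⟨e', rfl⟩ : ∃ e', e = e' + 1 := ⟨e - 1, by omega⟩
  simp only [Nat.add_sub_cancel] at hfin
  by_contra hcon
  have h1 : 2 * N' + 2 ≤ d' := by omega
  have h2 : (e' + 1) * (2 * N' + 2) ≤ (e' + 1) * d' := Nat.mul_le_mul_left _ h1
  nlinarith

end

end Pool.Agent.H13.CEV
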