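import Pool.Agent.H13.CEV.Generic

/-!
# Rational curves of bounded degree on general hypersurfaces are constant
-/

namespace Pool.Agent.H13.CEV

open Polynomial Pool.Agent.H13.Kob

section

variable {N d e : ℕ}

/-- elimination: an element lying in all primes over `I` which lie over the generic point -/
lemma elim {R S : Type*} [CommRing R] [IsDomain R] [CommRing S] [Algebra R S] (I : Ideal S) (M : S)
    (h : ∀ q : Ideal S, q.IsPrime → I ≤ q → (∀ r : R, r ≠ 0 → algebraMap R S r ∉ q) → M ∈ q) :
    ∃ (δ : R) (r : ℕ), δ ≠ 0 ∧ algebraMap R S δ * M ^ r ∈ I := by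
  by_contra hcon
  push Not at hcon
  let T : Submonoid S := ((nonZeroDivisors R).map (algebraMap R S)) ⊔ Submonoid.powers M
  have hT : Disjoint (I : Set S) (T : Set S) := by
    rw [Set.disjoint_left]
    intro x hxI hxT
    obtain ⟨y, hy, z, hz, rfl⟩ := Submonoid.mem_sup.mp hxT
    obtain ⟨δ, hδ, rfl⟩ := Submonoid.mem_map.mp hy
    obtain ⟨r, rfl⟩ := hz
    exact hcon δ r (nonZeroDivisors.ne_zero hδ) hxI
  obtain ⟨q, hq, hIq, hqT⟩ := Ideal.exists_le_prime_disjoint I T hT
  rw [Set.disjoint_left] at hqT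
  have h1 : M ∈ q := by
    apply h q hq hIq
    intro r hr hmem
    apply hqT hmem
    exact (Submonoid.mem_sup_left (S := (nonZeroDivisors R).map (algebraMap R S))
      (Submonoid.mem_map_of_mem _ (mem_nonZeroDivisors_of_ne_zero hr)))
  exact hqT h1 (Submonoid.mem_sup_right (Submonoid.mem_powers M))

/-- the coordinate ring of pairs (form, curve) -/
abbrev SS (N d e : ℕ) : Type := MvPolynomial (Fin N × Fin (e + 1)) (MvPolynomial (mons N d) ℂ)

/-- the equations of the incidence variety -/
noncomputable def II (N d e : ℕ) : Ideal (SS N d e) :=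
  Ideal.span (Set.range fun n : ℕ =>
    (Gc (fun α : mons N d => (MvPolynomial.C (MvPolynomial.X α) : SS N d e))
      (fun k : Fin N × Fin (e + 1) => (MvPolynomial.X k : SS N d e))).coeff n)

/-- the minors -/
noncomputable def MM (N d e : ℕ) (i j : Fin N) (a b : Fin (e + 1)) : SS N d e :=
  MvPolynomial.X (i, a) * MvPolynomial.X (j, b) - MvPolynomial.X (j, a) * MvPolynomial.X (i, b)

lemma field_step (hN : 3 ≤ N) (hd : 2 * N < d + 4) (K : Type) [Field K] [Algebra (SS N d e) K]
    [Algebra (MvPolynomial (mons N d) ℂ) K]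
    [IsScalarTower (MvPolynomial (mons N d) ℂ) (SS N d e) K]
    (q : Ideal (SS N d e)) [q.IsPrime] [Algebra (SS N d e ⧸ q) K]
    [IsScalarTower (SS N d e) (SS N d e ⧸ q) K]
    [IsFractionRing (SS N d e ⧸ q) K] (hq : II N d e ≤ q)
    (hR : ∀ r : MvPolynomial (mons N d) ℂ, r ≠ 0 →
      algebraMap (MvPolynomial (mons N d) ℂ) (SS N d e) r ∉ q)
    (i j : Fin N) (a b : Fin (e + 1)) : MM N d e i j a b ∈ q := by
  have hker : ∀ s : SS N d e, algebraMap (SS N d e) K s = 0 ↔ s ∈ q := by
    intro s
    rw [IsScalarTower.algebraMap_apply (SS N d e) (SS N d e ⧸ q) K]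
    rw [map_eq_zero_iff _ (IsFractionRing.injective (SS N d e ⧸ q) K)]
    exact Ideal.Quotient.eq_zero_iff_mem
  have hinj : Function.Injective (algebraMap (MvPolynomial (mons N d) ℂ) K) := by
    rw [injective_iff_map_eq_zero]
    intro r hr
    by_contra h0
    apply hR r h0
    rw [← hker, ← IsScalarTower.algebraMap_apply]
    exact hr
  have : CharZero K := by
    have : CharZero (MvPolynomial (mons N d) ℂ) := inferInstance
    exact charZero_of_injective_algebraMap hinj
  have : FaithfulSMul (MvPolynomial (mons N d) ℂ) K :=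
    (faithfulSMul_iff_algebraMap_injective _ _).mpr hinj
  let : Algebra (FractionRing (MvPolynomial (mons N d) ℂ)) K :=
    FractionRing.liftAlgebra (MvPolynomial (mons N d) ℂ) K
  have : IsScalarTower (MvPolynomial (mons N d) ℂ)
      (FractionRing (MvPolynomial (mons N d) ℂ)) K :=
    FractionRing.isScalarTower_liftAlgebra _ _
  have : Algebra.EssFiniteType (MvPolynomial (mons N d) ℂ) (SS N d e) := inferInstance
  have : Algebra.EssFiniteType (SS N d e) (SS N d e ⧸ q) := inferInstance
  have : Algebra.EssFiniteType (SS N d e ⧸ q) K :=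
    Algebra.EssFiniteType.of_isLocalization _ (nonZeroDivisors (SS N d e ⧸ q))
  have : Algebra.EssFiniteType (SS N d e) K :=
    Algebra.EssFiniteType.comp _ (SS N d e ⧸ q) _
  have : Algebra.EssFiniteType (MvPolynomial (mons N d) ℂ) K :=
    Algebra.EssFiniteType.comp _ (SS N d e) _
  have : Algebra.EssFiniteType (FractionRing (MvPolynomial (mons N d) ℂ)) K :=
    Algebra.EssFiniteType.of_comp (MvPolynomial (mons N d) ℂ) _ _
  have : CharZero (FractionRing (MvPolynomial (mons N d) ℂ)) := inferInstance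
  have : Algebra.FormallySmooth (FractionRing (MvPolynomial (mons N d) ℂ)) K := inferInstance
  have : Algebra.FormallySmooth (MvPolynomial (mons N d) ℂ)
      (FractionRing (MvPolynomial (mons N d) ℂ)) :=
    Algebra.FormallySmooth.of_isLocalization (nonZeroDivisors _)
  have : Algebra.FormallySmooth (MvPolynomial (mons N d) ℂ) K :=
    Algebra.FormallySmooth.comp _ (FractionRing (MvPolynomial (mons N d) ℂ)) _
  have hG : Gc (fun α : mons N d => algebraMap (MvPolynomial (mons N d) ℂ) K (MvPolynomial.X α))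
      (fun k : Fin N × Fin (e + 1) => algebraMap (SS N d e) K (MvPolynomial.X k)) = 0 := by
    have h1 := Gc_map (algebraMap (SS N d e) K)
      (fun α : mons N d => (MvPolynomial.C (MvPolynomial.X α) : SS N d e))
      (fun k : Fin N × Fin (e + 1) => (MvPolynomial.X k : SS N d e))
    have h2 : (fun α : mons N d => algebraMap (MvPolynomial (mons N d) ℂ) K (MvPolynomial.X α))
        = fun α => algebraMap (SS N d e) K (MvPolynomial.C (MvPolynomial.X α)) := by
      funext α
      rw [IsScalarTower.algebraMap_apply (MvPolynomial (mons N d) ℂ) (SS N d e) K]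
      rfl
    rw [h2, ← h1]
    ext n
    rw [coeff_map, coeff_zero, hker]
    exact hq (Ideal.subset_span ⟨n, rfl⟩)
  have h3 := minors_zero (K := K) hinj hN hd
    (fv (fun k : Fin N × Fin (e + 1) => algebraMap (SS N d e) K (MvPolynomial.X k)))
    (by rw [aeval_Fm]; exact hG) i j a b
  rw [fv_coeff, fv_coeff, fv_coeff, fv_coeff] at h3
  rw [← hker, MM, map_sub, map_mul, map_mul, h3, sub_self]

/-- Forms which admit a non-constant curve of degree at most `e` form a thin set. -/
theorem bounded_curves (hN : 3 ≤ N) (hd : 2 * N < d + 4) (e : ℕ) :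
    Thin {x : mons N d → ℂ | ∃ v : Fin N × Fin (e + 1) → ℂ, Gc x v = 0 ∧
      ∃ i j a b, v (i, a) * v (j, b) ≠ v (j, a) * v (i, b)} := by
  have hstep : ∀ t : (Fin N × Fin N) × (Fin (e + 1) × Fin (e + 1)),
      Thin {x : mons N d → ℂ | ∃ v : Fin N × Fin (e + 1) → ℂ, Gc x v = 0 ∧
        v (t.1.1, t.2.1) * v (t.1.2, t.2.2) ≠ v (t.1.2, t.2.1) * v (t.1.1, t.2.2)} := by
    rintro ⟨⟨i, j⟩, ⟨a, b⟩⟩
    obtain ⟨δ, r, hδ, hr⟩ := elim (R := MvPolynomial (mons N d) ℂ) (II N d e) (MM N d e i j a b) (by
      intro q hq hI hR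
      exact field_step hN hd (FractionRing (SS N d e ⧸ q)) q hI hR i j a b)
    refine ⟨δ, hδ, ?_⟩
    rintro x ⟨v, hv, hne⟩
    by_contra hx
    let ev : SS N d e →+* ℂ := MvPolynomial.eval₂Hom (MvPolynomial.eval x) v
    have hI : ∀ s ∈ II N d e, ev s = 0 := by
      intro s hs
      have h1 : II N d e ≤ RingHom.ker ev := by
        rw [II, Ideal.span_le]
        rintro _ ⟨n, rfl⟩
        show ev _ = 0
        rw [← coeff_map, Gc_map]
        have h2 : (fun α : mons N d => ev (MvPolynomial.C (MvPolynomial.X α))) = x := by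
          funext α
          simp [ev]
        have h3 : (fun k : Fin N × Fin (e + 1) => ev (MvPolynomial.X k)) = v := by
          funext k
          simp [ev]
        rw [h2, h3, hv, coeff_zero]
      exact h1 hs
    have h4 := hI _ hr
    have h5 : ev (algebraMap (MvPolynomial (mons N d) ℂ) (SS N d e) δ) = MvPolynomial.eval x δ := by
      show ev (MvPolynomial.C δ) = _
      simp [ev]
    have h6 : ev (MM N d e i j a b) = v (i, a) * v (j, b) - v (j, a) * v (i, b) := by
      simp [ev, MM]
    rw [map_mul, map_pow, h5, h6] at h4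
    rcases mul_eq_zero.mp h4 with h | h
    · exact hx h
    · exact hne (sub_eq_zero.mp (eq_zero_of_pow_eq_zero h))
  refine (thin_iUnion _ hstep).mono ?_
  rintro x ⟨v, hv, i, j, a, b, hne⟩
  exact Set.mem_iUnion.mpr ⟨((i, j), (a, b)), v, hv, hne⟩

end

end Pool.Agent.H13.CEV
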