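import Mathlib

/-!
# The chain rule for a derivation applied to `F(f)`
-/

namespace Pool.Agent.H13.CEV

open MvPolynomial

variable {K S : Type*} [CommRing K] [CommRing S] {N : ℕ}

/-- the defect of the chain rule without the coefficient term -/
noncomputable def Th (φ : K →+* S) (f : Fin N → S) (D : S →+ S)
    (F : MvPolynomial (Fin N) K) : S :=
  D (eval₂ φ f F) - ∑ i, eval₂ φ f (pderiv i F) * D (f i)

lemma Th_add (φ : K →+* S) (f : Fin N → S) (D : S →+ S)
    (p q : MvPolynomial (Fin N) K) : Th φ f D (p + q) = Th φ f D p + Th φ f D q := by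
  simp only [Th, eval₂_add, map_add, add_mul, Finset.sum_add_distrib]
  ring

lemma Th_mul (φ : K →+* S) (f : Fin N → S) (D : S →+ S)
    (hD : ∀ a b, D (a * b) = a * D b + b * D a)
    (p q : MvPolynomial (Fin N) K) :
    Th φ f D (p * q) = Th φ f D p * eval₂ φ f q + eval₂ φ f p * Th φ f D q := by
  simp only [Th, eval₂_mul, hD, Derivation.leibniz, eval₂_add, smul_eq_mul]
  rw [sub_mul, mul_sub, Finset.sum_mul, Finset.mul_sum]
  have : ∑ i, (eval₂ φ f p * eval₂ φ f (pderiv i q) + eval₂ φ f q * eval₂ φ f (pderiv i p)) * D (f i)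
      = ∑ i, eval₂ φ f (pderiv i p) * D (f i) * eval₂ φ f q
        + ∑ i, eval₂ φ f p * (eval₂ φ f (pderiv i q) * D (f i)) := by
    rw [← Finset.sum_add_distrib]
    apply Finset.sum_congr rfl
    intro i _
    ring
  rw [this]
  ring

lemma Th_X (φ : K →+* S) (f : Fin N → S) (D : S →+ S) (i : Fin N) :
    Th φ f D (X i) = 0 := by
  simp only [Th, eval₂_X, pderiv_X]
  rw [Finset.sum_eq_single i]
  · simp
  · intro j _ hj
    simp [hj]
  · simp

lemma Th_one (φ : K →+* S) (f : Fin N → S) (D : S →+ S)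
    (hD : ∀ a b, D (a * b) = a * D b + b * D a) :
    Th φ f D 1 = 0 := by
  have h1 : D 1 = 0 := by
    have := hD 1 1
    simp only [mul_one, one_mul] at this
    have h2 : D 1 + D 1 = D 1 + 0 := by rw [← this, add_zero]
    exact add_left_cancel h2
  simp [Th, h1]

lemma Th_C (φ : K →+* S) (f : Fin N → S) (D : S →+ S) (a : K) :
    Th φ f D (C a) = D (φ a) := by
  simp [Th]

lemma Th_pow (φ : K →+* S) (f : Fin N → S) (D : S →+ S)
    (hD : ∀ a b, D (a * b) = a * D b + b * D a) (i : Fin N) (k : ℕ) :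
    Th φ f D (X i ^ k) = 0 := by
  induction k with
  | zero => rw [pow_zero, Th_one _ _ _ hD]
  | succ k ih => rw [pow_succ, Th_mul _ _ _ hD, ih, Th_X]; ring

lemma Th_monomial (φ : K →+* S) (f : Fin N → S) (D : S →+ S)
    (hD : ∀ a b, D (a * b) = a * D b + b * D a) (α : Fin N →₀ ℕ) (a : K) :
    Th φ f D (monomial α a) = D (φ a) * ∏ i, f i ^ α i := by
  have h1 : Th φ f D (∏ i, X i ^ α i) = 0 := by
    apply Finset.prod_induction (p := fun p => Th φ f D p = 0)
    · intro p q hp hq
      rw [Th_mul _ _ _ hD, hp, hq]; ring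
    · exact Th_one φ f D hD
    · intro i _
      exact Th_pow φ f D hD i (α i)
  have h2 : monomial α a = C a * ∏ i, X i ^ α i := by
    rw [monomial_eq, Finsupp.prod_fintype]
    intro i; simp
  rw [h2, Th_mul _ _ _ hD, h1, Th_C, mul_zero, add_zero]
  congr 1
  rw [eval₂_prod]
  simp

/-- chain rule -/
theorem chain_rule (φ : K →+* S) (f : Fin N → S) (D : S →+ S)
    (hD : ∀ a b, D (a * b) = a * D b + b * D a)
    (F : MvPolynomial (Fin N) K) :
    D (eval₂ φ f F) = ∑ α ∈ F.support, D (φ (coeff α F)) * ∏ i, f i ^ α i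
      + ∑ i, eval₂ φ f (pderiv i F) * D (f i) := by
  have h1 : Th φ f D F = ∑ α ∈ F.support, D (φ (coeff α F)) * ∏ i, f i ^ α i := by
    have hadd : ∀ (s : Finset (Fin N →₀ ℕ)), Th φ f D (∑ α ∈ s, monomial α (coeff α F))
        = ∑ α ∈ s, D (φ (coeff α F)) * ∏ i, f i ^ α i := by
      classical
      intro s
      induction s using Finset.induction_on with
      | empty => simp [Th]
      | insert a s ha ih =>
        rw [Finset.sum_insert ha, Finset.sum_insert ha, Th_add, ih, Th_monomial _ _ _ hD]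
    rw [← hadd, support_sum_monomial_coeff]
  rw [← h1, Th]
  ring

end Pool.Agent.H13.CEV
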