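import Mathlib

/-!
# Extending derivations along formally smooth field extensions
-/

namespace Pool.Agent.H13.CEV

open Polynomial

/-- dual numbers over `K`, without the algebra instances -/
def Dual (K : Type*) : Type _ := TrivSqZeroExt K K

noncomputable instance (K : Type*) [Field K] : CommRing (Dual K) :=
  inferInstanceAs (CommRing (TrivSqZeroExt K K))

/-- first component -/
noncomputable def Dual.fst (K : Type*) [Field K] : Dual K →+* K :=
  (TrivSqZeroExt.fstHom ℤ K K).toRingHom

/-- second component -/
noncomputable def Dual.snd {K : Type*} [Field K] (x : Dual K) : K := TrivSqZeroExt.snd (R := K) (M := K) x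

lemma Dual.snd_add {K : Type*} [Field K] (x y : Dual K) : (x + y).snd = x.snd + y.snd :=
  TrivSqZeroExt.snd_add (R := K) (M := K) x y

lemma Dual.snd_mul {K : Type*} [Field K] (x y : Dual K) :
    (x * y).snd = Dual.fst K x * y.snd + Dual.fst K y * x.snd := by
  have := TrivSqZeroExt.snd_mul (R := K) (M := K) x y
  simp only [smul_eq_mul, MulOpposite.smul_eq_mul_unop, MulOpposite.unop_op] at this
  rw [mul_comm (Dual.fst K y)]
  exact this

lemma exists_derivation {R K : Type*} [CommRing R] [Field K] [Algebra R K]
    [Algebra.FormallySmooth R K] (δ : R →+ R) (hδ : ∀ a b, δ (a * b) = a * δ b + b * δ a) :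
    ∃ D : K →+ K, (∀ a b, D (a * b) = a * D b + b * D a) ∧
      ∀ r, D (algebraMap R K r) = algebraMap R K (δ r) := by
  have h1 : δ 1 = 0 := by
    have := hδ 1 1
    simp only [mul_one, one_mul] at this
    have h2 : δ 1 + δ 1 = δ 1 + 0 := by rw [← this, add_zero]
    exact add_left_cancel h2
  let φ : R →+* Dual K :=
    { toFun := fun r => ((algebraMap R K r, algebraMap R K (δ r)) : K × K)
      map_one' := by
        show ((algebraMap R K 1, algebraMap R K (δ 1)) : K × K) = (1, 0)
        rw [h1, map_one, map_zero]
      map_mul' := by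
        intro a b
        apply TrivSqZeroExt.ext
        · show algebraMap R K (a * b) = algebraMap R K a * algebraMap R K b
          rw [map_mul]
        · have := Dual.snd_mul (K := K) ((algebraMap R K a, algebraMap R K (δ a)) : K × K)
            ((algebraMap R K b, algebraMap R K (δ b)) : K × K)
          refine Eq.trans ?_ this.symm
          show algebraMap R K (δ (a * b)) = algebraMap R K a * algebraMap R K (δ b)
            + algebraMap R K b * algebraMap R K (δ a)
          rw [hδ, map_add, map_mul, map_mul]
      map_zero' := by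
        show ((algebraMap R K 0, algebraMap R K (δ 0)) : K × K) = (0, 0)
        rw [map_zero, map_zero, map_zero]
      map_add' := by
        intro a b
        apply TrivSqZeroExt.ext
        · show algebraMap R K (a + b) = algebraMap R K a + algebraMap R K b
          rw [map_add]
        · show algebraMap R K (δ (a + b)) = algebraMap R K (δ a) + algebraMap R K (δ b)
          rw [map_add, map_add] }
  let : Algebra R (Dual K) := φ.toAlgebra
  let g : Dual K →ₐ[R] K :=
    { Dual.fst K with
      commutes' := fun r => rfl }
  have hg : Function.Surjective g := by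
    intro x
    exact ⟨((x, 0) : K × K), rfl⟩
  have hker : IsNilpotent (RingHom.ker (g : Dual K →+* K)) := by
    refine ⟨2, ?_⟩
    rw [Ideal.zero_eq_bot, eq_bot_iff, pow_two, Ideal.mul_le]
    intro x hx y hy
    have hx' : Dual.fst K x = 0 := hx
    have hy' : Dual.fst K y = 0 := hy
    rw [Ideal.mem_bot]
    apply TrivSqZeroExt.ext
    · show Dual.fst K (x * y) = 0
      rw [map_mul, hx', zero_mul]
    · show (x * y).snd = 0
      rw [Dual.snd_mul, hx', hy', zero_mul, zero_mul, zero_add]
  let s : K →ₐ[R] Dual K := Algebra.FormallySmooth.liftOfSurjective (AlgHom.id R K) g hg hker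
  have hs : ∀ x, Dual.fst K (s x) = x := fun x =>
    Algebra.FormallySmooth.liftOfSurjective_apply (AlgHom.id R K) g hg hker x
  refine ⟨{ toFun := fun x => (s x).snd, map_zero' := ?_, map_add' := ?_ }, ?_, ?_⟩
  · rw [map_zero]; rfl
  · intro x y
    rw [map_add, Dual.snd_add]
  · intro a b
    show (s (a * b)).snd = a * (s b).snd + b * (s a).snd
    rw [map_mul, Dual.snd_mul, hs, hs]
  · intro r
    show (s (algebraMap R K r)).snd = algebraMap R K (δ r)
    rw [s.commutes]
    rfl

/-- a derivation of `K` applied to the coefficients of a polynomial -/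
noncomputable def coeffD {K : Type*} [Field K] (D : K →+ K) : K[X] →+ K[X] where
  toFun p := ∑ n ∈ Finset.range (p.natDegree + 1), C (D (p.coeff n)) * X ^ n
  map_zero' := by simp
  map_add' := by
    intro p q
    ext n
    have key : ∀ r : K[X], (∑ n ∈ Finset.range (r.natDegree + 1), C (D (r.coeff n)) * X ^ n).coeff n
        = D (r.coeff n) := by
      intro r
      simp only [finsetSum_coeff, coeff_C_mul, coeff_X_pow]
      rw [Finset.sum_eq_single n]
      · simp
      · intro m _ hm
        rw [if_neg (fun h => hm h.symm), mul_zero]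
      · intro hn
        rw [Finset.mem_range, not_lt] at hn
        rw [coeff_eq_zero_of_natDegree_lt (by omega), map_zero, zero_mul]
    rw [coeff_add, key, key, key, coeff_add, map_add]

lemma coeffD_coeff {K : Type*} [Field K] (D : K →+ K) (p : K[X]) (n : ℕ) :
    (coeffD D p).coeff n = D (p.coeff n) := by
  show (∑ n ∈ Finset.range (p.natDegree + 1), C (D (p.coeff n)) * X ^ n).coeff n = _
  simp only [finsetSum_coeff, coeff_C_mul, coeff_X_pow]
  rw [Finset.sum_eq_single n]
  · simp
  · intro m _ hm
    rw [if_neg (fun h => hm h.symm), mul_zero]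
  · intro hn
    rw [Finset.mem_range, not_lt] at hn
    rw [coeff_eq_zero_of_natDegree_lt (by omega), map_zero, zero_mul]

lemma coeffD_mul {K : Type*} [Field K] (D : K →+ K) (hD : ∀ a b, D (a * b) = a * D b + b * D a)
    (p q : K[X]) : coeffD D (p * q) = p * coeffD D q + q * coeffD D p := by
  ext n
  rw [coeffD_coeff, coeff_mul, map_sum, coeff_add, coeff_mul, mul_comm q, coeff_mul,
    ← Finset.sum_add_distrib]
  apply Finset.sum_congr rfl
  intro x _
  rw [coeffD_coeff, coeffD_coeff, hD]
  ring

lemma coeffD_C {K : Type*} [Field K] (D : K →+ K) (a : K) : coeffD D (C a) = C (D a) := by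
  ext n
  rw [coeffD_coeff, coeff_C, coeff_C]
  split_ifs
  · rfl
  · rw [map_zero]

lemma coeffD_natDegree {K : Type*} [Field K] (D : K →+ K) (p : K[X]) :
    (coeffD D p).natDegree ≤ p.natDegree := by
  rw [natDegree_le_iff_coeff_eq_zero]
  intro n hn
  rw [coeffD_coeff, coeff_eq_zero_of_natDegree_lt hn, map_zero]

end Pool.Agent.H13.CEV
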