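import Pool.Agent.H13.CEV.Bound
import Pool.Agent.H13.CEV.Extend
import Pool.Agent.H13.Kob.Thin

/-!
# Rational curves of bounded degree on a generic hypersurface
-/

namespace Pool.Agent.H13.CEV

open Polynomial Pool.Agent.H13.Kob

lemma exists_primitive {K : Type*} [Field K] {N : ℕ} (f : Fin N → K[X]) (hf : f ≠ 0) :
    ∃ (g : K[X]) (f' : Fin N → K[X]), g ≠ 0 ∧ (∀ i, f i = g * f' i) ∧
      ∃ u : Fin N → K[X], ∑ i, u i * f' i = 1 := by
  obtain ⟨g, hg⟩ := (IsPrincipalIdealRing.principal (Ideal.span (Set.range f))).principal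
  have hdvd : ∀ i, g ∣ f i := by
    intro i
    have h1 : f i ∈ Ideal.span (Set.range f) := Ideal.subset_span ⟨i, rfl⟩
    rw [hg] at h1
    exact Ideal.mem_span_singleton.mp h1
  have hg0 : g ≠ 0 := by
    rintro rfl
    apply hf
    funext i
    exact zero_dvd_iff.mp (hdvd i)
  choose f' hf' using hdvd
  refine ⟨g, f', hg0, hf', ?_⟩
  have h2 : g ∈ Ideal.span (Set.range f) := by
    rw [hg]; exact Ideal.mem_span_singleton_self g
  obtain ⟨u, hu⟩ := (Submodule.mem_span_range_iff_exists_fun K[X]).mp h2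
  refine ⟨u, ?_⟩
  apply mul_left_cancel₀ hg0
  rw [mul_one]
  conv_rhs => rw [← hu]
  rw [Finset.mul_sum]
  apply Finset.sum_congr rfl
  intro i _
  conv_rhs => rw [hf' i, smul_eq_mul]
  ring

lemma aeval_scale {K : Type*} [Field K] {N d : ℕ} (F : MvPolynomial (Fin N) K)
    (hF : F.IsHomogeneous d) (g : K[X]) (f : Fin N → K[X]) :
    MvPolynomial.aeval (fun i => g * f i) F = g ^ d * MvPolynomial.aeval f F := by
  rw [MvPolynomial.aeval_def, MvPolynomial.aeval_def, MvPolynomial.eval₂_eq',
    MvPolynomial.eval₂_eq', Finset.mul_sum]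
  apply Finset.sum_congr rfl
  intro α hα
  have h3 := hF (MvPolynomial.mem_support_iff.mp hα)
  rw [Finsupp.weight_apply, Finsupp.sum_fintype] at h3
  · simp only [Pi.one_apply, smul_eq_mul, mul_one] at h3
    simp only [mul_pow, Finset.prod_mul_distrib]
    rw [Finset.prod_pow_eq_pow_sum, h3]
    ring
  · simp

section

variable {N d e : ℕ}

/-- the form with coefficients `x` -/
noncomputable def Fm {A : Type*} [CommRing A] (x : mons N d → A) : MvPolynomial (Fin N) A :=
  ∑ α : mons N d, MvPolynomial.monomial α.1 (x α)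

/-- the curve with coefficients `v` -/
noncomputable def fv {A : Type*} [CommRing A] (v : Fin N × Fin (e + 1) → A) (i : Fin N) : A[X] :=
  ∑ a : Fin (e + 1), C (v (i, a)) * X ^ (a : ℕ)

/-- the form along the curve -/
noncomputable def Gc {A : Type*} [CommRing A] (x : mons N d → A)
    (v : Fin N × Fin (e + 1) → A) : A[X] :=
  ∑ α : mons N d, C (x α) * ∏ i, fv v i ^ α.1 i

lemma fv_map {A B : Type*} [CommRing A] [CommRing B] (ρ : A →+* B)
    (v : Fin N × Fin (e + 1) → A) (i : Fin N) :
    (fv v i).map ρ = fv (fun k => ρ (v k)) i := by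
  simp [fv, Polynomial.map_sum]

lemma Gc_map {A B : Type*} [CommRing A] [CommRing B] (ρ : A →+* B) (x : mons N d → A)
    (v : Fin N × Fin (e + 1) → A) :
    (Gc x v).map ρ = Gc (fun α => ρ (x α)) (fun k => ρ (v k)) := by
  simp [Gc, Polynomial.map_sum, Polynomial.map_prod, fv_map]

lemma fv_coeff {A : Type*} [CommRing A] (v : Fin N × Fin (e + 1) → A) (i : Fin N)
    (a : Fin (e + 1)) : (fv v i).coeff a = v (i, a) := by
  rw [fv, finsetSum_coeff, Finset.sum_eq_single a]
  · simp
  · intro b _ hb
    rw [coeff_C_mul, coeff_X_pow, if_neg, mul_zero]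
    intro h
    exact hb (Fin.ext h.symm)
  · simp

lemma fv_coeffs {A : Type*} [CommRing A] (f : Fin N → A[X]) (hf : ∀ i, (f i).natDegree ≤ e)
    (i : Fin N) : fv (e := e) (fun k => (f k.1).coeff k.2) i = f i := by
  rw [fv]
  conv_rhs => rw [Polynomial.as_sum_range_C_mul_X_pow' (f i) (Nat.lt_succ_of_le (hf i))]
  rw [Finset.sum_range]

lemma Fm_homog {A : Type*} [CommRing A] (x : mons N d → A) : (Fm x).IsHomogeneous d := by
  refine MvPolynomial.IsHomogeneous.sum _ _ _ ?_
  intro m _
  apply MvPolynomial.isHomogeneous_monomial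
  have := mem_mons.mp m.2
  rw [Finsupp.degree_eq_sum]
  exact this

lemma Fm_coeff {A : Type*} [CommRing A] (x : mons N d → A) (α : mons N d) :
    (Fm x).coeff α.1 = x α := by
  classical
  rw [Fm, MvPolynomial.coeff_sum, Finset.sum_eq_single α]
  · simp
  · intro b _ hb
    rw [MvPolynomial.coeff_monomial, if_neg]
    intro h
    exact hb (Subtype.ext h)
  · simp

lemma aeval_Fm {K : Type*} [Field K] (x : mons N d → K) (f : Fin N → K[X]) :
    MvPolynomial.aeval f (Fm x) = ∑ α : mons N d, C (x α) * ∏ i, f i ^ α.1 i := by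
  rw [Fm, map_sum]
  apply Finset.sum_congr rfl
  intro α _
  rw [MvPolynomial.aeval_monomial, Finsupp.prod_fintype]
  · rfl
  · simp

/-- Over a formally smooth extension of the ring of coefficients of the generic form, the
curves on the generic hypersurface are constant. -/
lemma minors_zero {K : Type*} [Field K] [CharZero K]
    [Algebra (MvPolynomial (mons N d) ℂ) K]
    [Algebra.FormallySmooth (MvPolynomial (mons N d) ℂ) K]
    (hinj : Function.Injective (algebraMap (MvPolynomial (mons N d) ℂ) K))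
    (hN : 3 ≤ N) (hd : 2 * N < d + 4) (f : Fin N → K[X])
    (hf : MvPolynomial.aeval f (Fm (fun α : mons N d =>
      algebraMap (MvPolynomial (mons N d) ℂ) K (MvPolynomial.X α))) = 0) (i j : Fin N) (a b : ℕ) :
    (f i).coeff a * (f j).coeff b = (f j).coeff a * (f i).coeff b := by
  classical
  set F := Fm (fun α : mons N d =>
      algebraMap (MvPolynomial (mons N d) ℂ) K (MvPolynomial.X α)) with hFdef
  have hF : F.IsHomogeneous d := Fm_homog _
  by_cases hf0 : f = 0
  · rw [hf0]; simp
  obtain ⟨g, f', hg0, hgf, u, hu⟩ := exists_primitive f hf0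
  have hf' : MvPolynomial.aeval f' F = 0 := by
    have h1 : f = fun i => g * f' i := funext hgf
    rw [h1, aeval_scale F hF] at hf
    exact (mul_eq_zero.mp hf).resolve_left (pow_ne_zero _ hg0)
  have hprim : ∀ p : K[X], (∀ i, p ∣ f' i) → IsUnit p := by
    intro p hp
    apply isUnit_of_dvd_one
    rw [← hu]
    exact Finset.dvd_sum fun i _ => (hp i).mul_left _
  obtain ⟨i₀, -, hi₀⟩ := Finset.exists_max_image Finset.univ (fun i => (f' i).natDegree)
    ⟨(⟨0, by omega⟩ : Fin N), Finset.mem_univ _⟩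
  set e := (f' i₀).natDegree with he
  have hdeg : ∀ i, (f' i).natDegree ≤ e := fun i => hi₀ i (Finset.mem_univ i)
  rcases Nat.eq_zero_or_pos e with h0 | hpos
  · have hC : ∀ i, f' i = C ((f' i).coeff 0) := fun i =>
      eq_C_of_natDegree_le_zero (h0 ▸ hdeg i)
    rw [hgf i, hgf j, hC i, hC j]
    simp only [coeff_mul_C]
    ring
  · exfalso
    have hder : ∀ α : mons N d, ∃ D : K →+ K, (∀ a b, D (a * b) = a * D b + b * D a) ∧
        ∀ r, D (algebraMap (MvPolynomial (mons N d) ℂ) K r)
          = algebraMap (MvPolynomial (mons N d) ℂ) K (MvPolynomial.pderiv α r) := by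
      intro α
      obtain ⟨D, hD1, hD2⟩ := exists_derivation (R := MvPolynomial (mons N d) ℂ) (K := K)
        (MvPolynomial.pderiv (R := ℂ) α).toLinearMap.toAddMonoidHom (by
          intro a b
          show MvPolynomial.pderiv α (a * b) = a * MvPolynomial.pderiv α b
            + b * MvPolynomial.pderiv α a
          rw [Derivation.leibniz, smul_eq_mul, smul_eq_mul])
      exact ⟨D, hD1, hD2⟩
    choose D hD1 hD2 using hder
    let h : (Fin N →₀ ℕ) → Fin N → K[X] :=
      fun α i => if hα : α ∈ mons N d then coeffD (D ⟨α, hα⟩) (f' i) else 0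
    have hh : ∀ α : Fin N →₀ ℕ, ∑ i, α i = d → ∀ i, (h α i).natDegree ≤ e := by
      intro α hα i
      show (if hα : α ∈ mons N d then coeffD (D ⟨α, hα⟩) (f' i) else 0).natDegree ≤ e
      split_ifs with h
      · exact (coeffD_natDegree _ _).trans (hdeg i)
      · simp
    have hrel : ∀ α : Fin N →₀ ℕ, ∑ i, α i = d →
        (∏ i, f' i ^ α i) + ∑ i, Gr F f' i * h α i = 0 := by
      intro α hα
      have hmem : α ∈ mons N d := mem_mons.mpr hα
      have h1 := chain_rule (C : K →+* K[X]) f' (coeffD (D ⟨α, hmem⟩))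
        (coeffD_mul _ (hD1 ⟨α, hmem⟩)) F
      have h2 : MvPolynomial.eval₂ (C : K →+* K[X]) f' F = 0 := hf'
      rw [h2, map_zero] at h1
      have h3 : ∑ β ∈ F.support, (coeffD (D ⟨α, hmem⟩)) (C (MvPolynomial.coeff β F))
          * ∏ i, f' i ^ β i = ∏ i, f' i ^ α i := by
        have hβ : ∀ β ∈ F.support, β ∈ mons N d := by
          intro β hβ
          have h4 := hF (MvPolynomial.mem_support_iff.mp hβ)
          rw [mem_mons, ← h4, Finsupp.weight_apply, Finsupp.sum_fintype]
          · simp
          · simp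
        rw [Finset.sum_eq_single α]
        · rw [coeffD_C, hFdef, Fm_coeff _ ⟨α, hmem⟩, hD2, MvPolynomial.pderiv_X_self, map_one,
            C_1, one_mul]
        · intro β hβ' hne
          rw [coeffD_C, hFdef, Fm_coeff _ ⟨β, hβ β hβ'⟩, hD2, MvPolynomial.pderiv_X_of_ne,
            map_zero, C_0, zero_mul]
          intro h
          exact hne (congrArg Subtype.val h)
        · intro hα'
          exfalso
          rw [MvPolynomial.notMem_support_iff, hFdef, Fm_coeff _ ⟨α, hmem⟩] at hα'
          exact (MvPolynomial.X_ne_zero _) (hinj (by rw [hα', map_zero]))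
      rw [h3] at h1
      have h5 : ∀ i, h α i = coeffD (D ⟨α, hmem⟩) (f' i) := fun i => dif_pos hmem
      have h6 : ∑ i, Gr F f' i * h α i
          = ∑ i, MvPolynomial.eval₂ C f' (MvPolynomial.pderiv i F)
            * coeffD (D ⟨α, hmem⟩) (f' i) := by
        apply Finset.sum_congr rfl
        intro i _
        rw [h5 i]
        rfl
      rw [h6]
      exact h1.symm
    have hbound := degree_bound hN hpos (by omega : 1 ≤ d) hF hprim hdeg i₀ rfl hf' hh hrel
    omega

end

end Pool.Agent.H13.CEV
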