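import Mathlib

/-!
# Minors of systems of polynomial vectors
-/

namespace Pool.Agent.H13.CEV

open Polynomial

lemma natDegree_det_le {K : Type*} [Field K] {n : Type*} [Fintype n] [DecidableEq n]
    (M : Matrix n n K[X]) (bd : n → ℕ) (h : ∀ r s, (M r s).natDegree ≤ bd r) :
    M.det.natDegree ≤ ∑ r, bd r := by
  rw [Matrix.det_apply]
  apply natDegree_sum_le_of_forall_le
  intro σ _
  have h1 : (∏ i, M (σ i) i).natDegree ≤ ∑ r, bd r := by
    refine (natDegree_prod_le _ _).trans ?_
    rw [← Equiv.sum_comp σ bd]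
    exact Finset.sum_le_sum fun i _ => h _ _
  have h2 : (Equiv.Perm.sign σ • ∏ i, M (σ i) i).natDegree ≤ (∏ i, M (σ i) i).natDegree := by
    rcases Int.units_eq_one_or (Equiv.Perm.sign σ) with h | h <;> simp [h]
  exact h2.trans h1

/-- coordinatewise image in the fraction field -/
noncomputable def io {K : Type*} [Field K] {N : ℕ} (y : Fin N → K[X]) : Fin N → FractionRing K[X] :=
  fun i => algebraMap K[X] (FractionRing K[X]) (y i)

lemma io_injective {K : Type*} [Field K] {N : ℕ} :
    Function.Injective (io : (Fin N → K[X]) → (Fin N → FractionRing K[X])) := by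
  intro y y' h
  funext i
  exact (IsFractionRing.injective K[X] (FractionRing K[X])) (congrFun h i)

theorem exists_minor {K : Type*} [Field K] {N : ℕ} (hN : 3 ≤ N) (T : Set (Fin N → K[X]))
    (r₁ r₂ : Fin N → K[X]) (hr₁ : r₁ ∈ T) (hr₂ : r₂ ∈ T) {a b : ℕ}
    (ha₁ : ∀ i, (r₁ i).natDegree ≤ a) (ha₂ : ∀ i, (r₂ i).natDegree ≤ a)
    (hb : ∀ y ∈ T, ∀ i, (y i).natDegree ≤ b)
    (hli : ∀ x y : FractionRing K[X], x • io r₁ + y • io r₂ = 0 → x = 0 ∧ y = 0)
    (G : Fin N → K[X]) (hG : G ≠ 0) (hGT : ∀ y ∈ T, ∑ i, G i * y i = 0)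
    (hann : ∀ lam : Fin N → FractionRing K[X],
      (∀ y ∈ T, ∑ i, lam i * algebraMap K[X] (FractionRing K[X]) (y i) = 0) →
      ∃ μ : FractionRing K[X], ∀ i, lam i = μ * algebraMap K[X] (FractionRing K[X]) (G i)) :
    ∃ c : Fin N → K[X], c ≠ 0 ∧ (∀ i, (c i).natDegree ≤ 2 * a + (N - 3) * b) ∧
      ∃ μ : FractionRing K[X], ∀ i, algebraMap K[X] (FractionRing K[X]) (c i)
        = μ * algebraMap K[X] (FractionRing K[X]) (G i) := by
  classical
  set Q := FractionRing K[X] with hQ
  have hinj : Function.Injective (algebraMap K[X] Q) := IsFractionRing.injective K[X] Q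
  -- the two vectors
  have hne12 : io r₁ ≠ io r₂ := by
    intro h
    have := hli 1 (-1) (by rw [h]; simp)
    exact one_ne_zero this.1
  have hpair : LinearIndepOn Q id ({io r₁, io r₂} : Set (Fin N → Q)) := by
    rw [LinearIndepOn.pair_iff id hne12]
    intro x y hxy
    exact hli x y (by simpa using hxy)
  set T' : Set (Fin N → Q) := io '' T with hT'
  have hsub : ({io r₁, io r₂} : Set (Fin N → Q)) ⊆ T' := by
    intro y hy
    rcases hy with rfl | hy
    · exact ⟨r₁, hr₁, rfl⟩
    · rw [Set.mem_singleton_iff] at hy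
      subst hy
      exact ⟨r₂, hr₂, rfl⟩
  obtain ⟨B, hBT, hB12, hTB, hBli⟩ := exists_linearIndepOn_id_extension hpair hsub
  -- functional given by `G`
  obtain ⟨i₀, hi₀⟩ : ∃ i, G i ≠ 0 := by
    by_contra hcon
    push Not at hcon
    exact hG (funext hcon)
  -- a general functional
  have hfun : ∀ lam : Fin N → Q, (∀ y ∈ B, ∑ i, lam i * y i = 0) →
      ∀ y ∈ Submodule.span Q B, ∑ i, lam i * y i = 0 := by
    intro lam hlam y hy
    induction hy using Submodule.span_induction with
    | mem x hx => exact hlam x hx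
    | zero => simp
    | add x y _ _ hx hy =>
      simp only [Pi.add_apply, mul_add, Finset.sum_add_distrib, hx, hy, add_zero]
    | smul t x _ hx =>
      have : ∑ i, lam i * (t • x) i = t * ∑ i, lam i * x i := by
        rw [Finset.mul_sum]
        apply Finset.sum_congr rfl
        intro i _
        simp only [Pi.smul_apply, smul_eq_mul]
        ring
      rw [this, hx, mul_zero]
  have hGB : ∀ y ∈ B, ∑ i, algebraMap K[X] Q (G i) * y i = 0 := by
    intro y hy
    obtain ⟨Y, hY, rfl⟩ := hBT hy
    have := congrArg (algebraMap K[X] Q) (hGT Y hY)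
    rw [map_sum, map_zero] at this
    rw [← this]
    apply Finset.sum_congr rfl
    intro i _
    rw [map_mul]
    rfl
  set w : Fin N → Q := Pi.single i₀ 1 with hw
  have hwsum : ∀ lam : Fin N → Q, ∑ i, lam i * w i = lam i₀ := by
    intro lam
    rw [Finset.sum_eq_single i₀]
    · simp [hw]
    · intro j _ hj
      simp [hw, hj]
    · simp
  have hwB : w ∉ Submodule.span Q B := by
    intro h
    have h1 := hfun _ hGB w h
    rw [hwsum] at h1
    apply hi₀
    apply hinj
    rw [h1, map_zero]
  have hwB' : w ∉ B := fun h => hwB (Submodule.subset_span h)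
  have hB'li : LinearIndepOn Q id (insert w B) := by
    rw [linearIndepOn_id_insert hwB']
    exact ⟨hBli, hwB⟩
  have hspan : Submodule.span Q (insert w B) = ⊤ := by
    by_contra hne
    obtain ⟨ℓ, hℓ0, hℓ⟩ := Submodule.exists_le_ker_of_lt_top _ (lt_top_iff_ne_top.mpr hne)
    set lam : Fin N → Q := fun j => ℓ (Pi.single j 1) with hlam
    have hℓv : ∀ v : Fin N → Q, ℓ v = ∑ j, lam j * v j := by
      intro v
      conv_lhs => rw [LinearMap.pi_apply_eq_sum_univ ℓ v]
      apply Finset.sum_congr rfl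
      intro j _
      simp only [smul_eq_mul, hlam]
      rw [mul_comm]
      congr 2
      funext k
      simp [Pi.single_apply, eq_comm]
    have hker : ∀ y ∈ insert w B, ∑ j, lam j * y j = 0 := by
      intro y hy
      rw [← hℓv]
      exact hℓ (Submodule.subset_span hy)
    have h1 : ∀ y ∈ T, ∑ i, lam i * algebraMap K[X] Q (y i) = 0 := by
      intro y hy
      exact hfun lam (fun y hy => hker y (Set.mem_insert_of_mem w hy)) (io y)
        (hTB ⟨y, hy, rfl⟩)
    obtain ⟨μ, hμ⟩ := hann lam h1
    have h2 := hker w (Set.mem_insert w B)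
    rw [hwsum, hμ i₀] at h2
    have h3 : μ = 0 := by
      rcases mul_eq_zero.mp h2 with h | h
      · exact h
      · exact absurd (hinj (by rw [h, map_zero])) hi₀
    apply hℓ0
    apply LinearMap.ext
    intro v
    rw [hℓv]
    simp [hμ, h3]
  -- a basis indexed by `Fin N`
  let bas : Module.Basis (insert w B : Set (Fin N → Q)) Q (Fin N → Q) :=
    Module.Basis.mk (v := fun x : (insert w B : Set (Fin N → Q)) => (x : Fin N → Q)) hB'li (by
      rw [Subtype.range_coe]; exact hspan.ge)
  have hfin : Finite (insert w B : Set (Fin N → Q)) := Module.Finite.finite_basis bas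
  have : Fintype (insert w B : Set (Fin N → Q)) := Fintype.ofFinite _
  have hcard : Fintype.card (insert w B : Set (Fin N → Q)) = Fintype.card (Fin N) := by
    have h1 := Module.finrank_eq_card_basis bas
    rw [Module.finrank_fintype_fun_eq_card] at h1
    exact h1.symm
  let σ : Fin N ≃ (insert w B : Set (Fin N → Q)) := (Fintype.equivOfCardEq hcard).symm
  -- lifts
  have hlift : ∀ y : Fin N → Q, y ∈ insert w B → ∃ Y : Fin N → K[X], io Y = y ∧
      (y ∈ B → Y ∈ T) ∧ (∀ i, (Y i).natDegree ≤ if y = w then 0 else b) := by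
    intro y hy
    by_cases hyw : y = w
    · refine ⟨Pi.single i₀ 1, ?_, ?_, ?_⟩
      · rw [hyw]
        funext i
        simp only [io, hw]
        by_cases h : i = i₀
        · subst h; simp
        · simp [h]
      · intro hyB
        exact absurd (hyw ▸ hyB) hwB'
      · intro i
        rw [if_pos hyw]
        by_cases h : i = i₀
        · subst h; simp
        · simp [h]
    · have hyB : y ∈ B := by
        rcases hy with h | h
        · exact absurd h hyw
        · exact h
      obtain ⟨Y, hY, hYy⟩ := hBT hyB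
      refine ⟨Y, hYy, fun _ => hY, fun i => ?_⟩
      rw [if_neg hyw]
      exact hb Y hY i
  choose lift hlift1 hlift2 hlift3 using hlift
  set M : Matrix (Fin N) (Fin N) K[X] := Matrix.of fun r => lift (σ r) (σ r).2 with hM
  have hMrow : ∀ r i, algebraMap K[X] Q (M r i) = (σ r : Fin N → Q) i := by
    intro r i
    have := congrFun (hlift1 (σ r) (σ r).2) i
    exact this
  have hdet : M.det ≠ 0 := by
    intro h0
    have h1 : (M.map (algebraMap K[X] Q)).det = 0 := by
      rw [← RingHom.mapMatrix_apply, ← RingHom.map_det, h0, map_zero]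
    have h2 : LinearIndependent Q (fun r => (M.map (algebraMap K[X] Q)) r) := by
      have h3 : (fun r => (M.map (algebraMap K[X] Q)) r) = fun r => (σ r : Fin N → Q) := by
        funext r i
        exact hMrow r i
      rw [h3]
      have h4 : LinearIndependent Q (fun x : (insert w B : Set (Fin N → Q)) => (x : Fin N → Q)) :=
        hB'li
      exact h4.comp σ σ.injective
    have h5 := (Matrix.linearIndependent_rows_iff_isUnit (A := M.map (algebraMap K[X] Q))).mp h2
    exact ((Matrix.isUnit_iff_isUnit_det _).mp h5).ne_zero h1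
  set ρ₀ : Fin N := σ.symm ⟨w, Set.mem_insert w B⟩ with hρ₀
  set ρ₁ : Fin N := σ.symm ⟨io r₁, Set.mem_insert_of_mem w (hB12 (by simp))⟩ with hρ₁
  set ρ₂ : Fin N := σ.symm ⟨io r₂, Set.mem_insert_of_mem w (hB12 (by simp))⟩ with hρ₂
  have hσ0 : (σ ρ₀ : Fin N → Q) = w := by simp [hρ₀]
  have hσ1 : (σ ρ₁ : Fin N → Q) = io r₁ := by simp [hρ₁]
  have hσ2 : (σ ρ₂ : Fin N → Q) = io r₂ := by simp [hρ₂]
  have hr1B : io r₁ ∈ B := hB12 (by simp)
  have hr2B : io r₂ ∈ B := hB12 (by simp)
  have h01 : ρ₀ ≠ ρ₁ := by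
    intro h; apply hwB'; rw [← hσ0, h, hσ1]; exact hr1B
  have h02 : ρ₀ ≠ ρ₂ := by
    intro h; apply hwB'; rw [← hσ0, h, hσ2]; exact hr2B
  have h12 : ρ₁ ≠ ρ₂ := by
    intro h; apply hne12; rw [← hσ1, h, hσ2]
  set bd : Fin N → ℕ := fun r => if r = ρ₀ then 0 else if r = ρ₁ then a else if r = ρ₂ then a else b
    with hbd
  have hbdsum : ∑ r, bd r = 2 * a + (N - 3) * b := by
    rw [← Finset.add_sum_erase _ _ (Finset.mem_univ ρ₀)]
    rw [← Finset.add_sum_erase _ _ (Finset.mem_erase.mpr ⟨h01.symm, Finset.mem_univ ρ₁⟩)]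
    rw [← Finset.add_sum_erase _ _ (Finset.mem_erase.mpr ⟨h12.symm,
      Finset.mem_erase.mpr ⟨h02.symm, Finset.mem_univ ρ₂⟩⟩)]
    have h1 : ∀ r ∈ ((Finset.univ.erase ρ₀).erase ρ₁).erase ρ₂, bd r = b := by
      intro r hr
      simp only [Finset.mem_erase, Finset.mem_univ, and_true] at hr
      simp only [hbd]
      rw [if_neg hr.2.2, if_neg hr.2.1, if_neg hr.1]
    rw [Finset.sum_congr rfl h1, Finset.sum_const, smul_eq_mul]
    have h2 : (((Finset.univ.erase ρ₀).erase ρ₁).erase ρ₂).card = N - 3 := by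
      rw [Finset.card_erase_of_mem (Finset.mem_erase.mpr ⟨h12.symm,
        Finset.mem_erase.mpr ⟨h02.symm, Finset.mem_univ ρ₂⟩⟩),
        Finset.card_erase_of_mem (Finset.mem_erase.mpr ⟨h01.symm, Finset.mem_univ ρ₁⟩),
        Finset.card_erase_of_mem (Finset.mem_univ ρ₀), Finset.card_univ, Fintype.card_fin]
      omega
    rw [h2]
    have e0 : bd ρ₀ = 0 := by simp [hbd]
    have e1 : bd ρ₁ = a := by simp [hbd, h01.symm]
    have e2 : bd ρ₂ = a := by simp [hbd, h02.symm, h12.symm]
    rw [e0, e1, e2]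
    ring
  set c : Fin N → K[X] := fun i => Matrix.adjugate M i ρ₀ with hc
  have hMadj : ∀ r, ∑ i, M r i * c i = if r = ρ₀ then M.det else 0 := by
    intro r
    have h1 := congrFun (congrFun (Matrix.mul_adjugate M) r) ρ₀
    rw [Matrix.mul_apply] at h1
    rw [hc]
    rw [h1]
    simp [Matrix.one_apply]
  refine ⟨c, ?_, ?_, ?_⟩
  · intro h0
    have h1 := hMadj ρ₀
    rw [if_pos rfl, h0] at h1
    apply hdet
    rw [← h1]
    simp
  · intro i
    rw [← hbdsum]
    simp only [hc]
    rw [Matrix.adjugate_apply]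
    apply natDegree_det_le
    intro r s
    by_cases hr0 : r = ρ₀
    · subst hr0
      rw [Matrix.updateRow_self]
      by_cases h : s = i
      · subst h; simp
      · simp [h]
    · rw [Matrix.updateRow_ne hr0]
      simp only [hbd]
      rw [if_neg hr0]
      have hrw : (σ r : Fin N → Q) ≠ w := by
        intro h
        apply hr0
        rw [hρ₀, Equiv.eq_symm_apply]
        exact Subtype.ext h
      split_ifs with h1 h2
      · subst h1
        have : M ρ₁ = r₁ := by
          apply io_injective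
          exact (hlift1 (σ ρ₁) (σ ρ₁).2).trans hσ1
        rw [this]
        exact ha₁ s
      · subst h2
        have : M ρ₂ = r₂ := by
          apply io_injective
          exact (hlift1 (σ ρ₂) (σ ρ₂).2).trans hσ2
        rw [this]
        exact ha₂ s
      · have := hlift3 (σ r) (σ r).2 s
        rw [if_neg hrw] at this
        exact this
  · apply hann
    intro y hy
    have h1 : ∀ y ∈ B, ∑ i, algebraMap K[X] Q (c i) * y i = 0 := by
      intro y hyB
      set r := σ.symm ⟨y, Set.mem_insert_of_mem w hyB⟩ with hr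
      have hσr : (σ r : Fin N → Q) = y := by simp [hr]
      have hr0 : r ≠ ρ₀ := by
        intro h; apply hwB'; rw [← hσ0, ← h, hσr]; exact hyB
      have h2 := hMadj r
      rw [if_neg hr0] at h2
      have h3 := congrArg (algebraMap K[X] Q) h2
      rw [map_sum, map_zero] at h3
      rw [← h3]
      apply Finset.sum_congr rfl
      intro i _
      rw [map_mul, hMrow, hσr, mul_comm]
    exact hfun (fun i => algebraMap K[X] Q (c i)) h1 (io y) (hTB ⟨y, hy, rfl⟩)

end Pool.Agent.H13.CEV
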