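import Pool.Agent.H13.CEV.ChainRule
import Pool.Agent.H13.CEV.Minor

/-!
# The Clemens–Ein–Voisin degree bound, in polynomial form
-/

namespace Pool.Agent.H13.CEV

open Polynomial

/-- annihilator lemma -/
lemma annih {K Q : Type*} [Field K] [Field Q] [Algebra K Q] {N d : ℕ} (hd : 1 ≤ d)
    (f : Fin N → Q) (h : (Fin N →₀ ℕ) → Fin N → Q) (F : MvPolynomial (Fin N) K)
    (hF : F.IsHomogeneous d) (lam : Fin N → Q) (l : Fin N) (hl : f l ≠ 0)
    (hu : ∀ m, f l * lam m + ∑ α ∈ (MvPolynomial.X l * MvPolynomial.pderiv m F).support,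
      algebraMap K Q (MvPolynomial.coeff α (MvPolynomial.X l * MvPolynomial.pderiv m F))
        * ∑ k, lam k * h α k = 0)
    (hs : ∀ β : Fin N →₀ ℕ, (∑ i, β i) + 1 = d → ∀ i j,
      f j * (∑ k, lam k * h (β + Finsupp.single i 1) k)
        = f i * (∑ k, lam k * h (β + Finsupp.single j 1) k)) :
    ∃ μ : Q, ∀ m, lam m = μ * MvPolynomial.aeval f (MvPolynomial.pderiv m F) := by
  classical
  set c : (Fin N →₀ ℕ) → Q := fun α => ∑ k, lam k * h α k with hc
  have key : ∀ (t : ℕ) (α : Fin N →₀ ℕ), ∑ i, α i = d → d - α l = t →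
      f l ^ d * c α = (∏ i, f i ^ α i) * c (Finsupp.single l d) := by
    intro t
    induction t with
    | zero =>
      intro α hα ht
      have h1 : α l ≤ ∑ i, α i := Finset.single_le_sum (fun _ _ => Nat.zero_le _) (Finset.mem_univ l)
      have h2 : α l = d := by omega
      have h3 : α = Finsupp.single l d := by
        have h4 : ∑ i ∈ Finset.univ.erase l, α i = 0 := by
          have := Finset.add_sum_erase Finset.univ (fun i => α i) (Finset.mem_univ l)
          omega
        ext i
        by_cases hi : i = l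
        · subst hi; simp [h2]
        · have := (Finset.sum_eq_zero_iff.mp h4) i (Finset.mem_erase.mpr ⟨hi, Finset.mem_univ i⟩)
          rw [this, Finsupp.single_apply, if_neg (fun h => hi h.symm)]
      rw [h3]
      congr 1
      rw [Finset.prod_eq_single l]
      · simp
      · intro i _ hi
        rw [Finsupp.single_apply, if_neg (fun h => hi h.symm), pow_zero]
      · simp
    | succ t ih =>
      intro α hα ht
      have h1 : α l < d := by omega
      obtain ⟨i, hil, hi⟩ : ∃ i, i ≠ l ∧ α i ≠ 0 := by
        by_contra hcon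
        push Not at hcon
        have h4 : ∑ i, α i = α l := by
          rw [Finset.sum_eq_single l]
          · intro i _ hi; exact hcon i hi
          · simp
        omega
      set β : Fin N →₀ ℕ := α - Finsupp.single i 1 with hβ
      have hαβ : α = β + Finsupp.single i 1 := by
        rw [hβ, tsub_add_cancel_of_le]
        rw [Finsupp.single_le_iff]
        omega
      have hβd : (∑ j, β j) + 1 = d := by
        rw [← hα, hαβ]
        simp only [Finsupp.add_apply, Finset.sum_add_distrib]
        congr 1
        rw [Finset.sum_eq_single i]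
        · simp
        · intro j _ hj
          rw [Finsupp.single_apply, if_neg (fun h => hj h.symm)]
        · simp
      have h2 := hs β hβd i l
      have hβl : β l = α l := by
        rw [hαβ]
        simp [hil]
      have h3 := ih (β + Finsupp.single l 1) (by
        simp only [Finsupp.add_apply, Finset.sum_add_distrib]
        rw [← hβd]
        congr 1
        rw [Finset.sum_eq_single l]
        · simp
        · intro j _ hj
          rw [Finsupp.single_apply, if_neg (fun h => hj h.symm)]
        · simp) (by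
        rw [Finsupp.add_apply, hβl, Finsupp.single_eq_same]
        omega)
      have hprod : ∀ k : Fin N, ∏ j, f j ^ ((β + Finsupp.single k 1 : Fin N →₀ ℕ) j)
          = (∏ j, f j ^ β j) * f k := by
        intro k
        simp only [Finsupp.add_apply, pow_add, Finset.prod_mul_distrib]
        congr 1
        rw [Finset.prod_eq_single k]
        · simp
        · intro j _ hj
          rw [Finsupp.single_apply, if_neg (fun h => hj h.symm), pow_zero]
        · simp
      apply mul_left_cancel₀ hl
      rw [hαβ, hprod i]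
      rw [hprod l] at h3
      have h2' : f l * c (β + Finsupp.single i 1) = f i * c (β + Finsupp.single l 1) := h2
      calc f l * (f l ^ d * c (β + Finsupp.single i 1))
          = f l ^ d * (f l * c (β + Finsupp.single i 1)) := by ring
        _ = f l ^ d * (f i * c (β + Finsupp.single l 1)) := by rw [h2']
        _ = f i * (f l ^ d * c (β + Finsupp.single l 1)) := by ring
        _ = f i * ((∏ j, f j ^ β j) * f l * c (Finsupp.single l d)) := by rw [h3]
        _ = f l * ((∏ j, f j ^ β j) * f i * c (Finsupp.single l d)) := by ring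
  refine ⟨- c (Finsupp.single l d) / f l ^ d, fun m => ?_⟩
  have hld : f l ^ d ≠ 0 := pow_ne_zero _ hl
  set Qm := MvPolynomial.X l * MvPolynomial.pderiv m F with hQm
  have hQmd : Qm.IsHomogeneous d := by
    have h1 : (MvPolynomial.pderiv m F).IsHomogeneous (d - 1) := hF.pderiv
    have h2 := (MvPolynomial.isHomogeneous_X K l).mul h1
    have h3 : 1 + (d - 1) = d := by omega
    rw [h3] at h2
    exact h2
  have hev : MvPolynomial.aeval f Qm = f l * MvPolynomial.aeval f (MvPolynomial.pderiv m F) := by
    rw [hQm, map_mul, MvPolynomial.aeval_X]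
  have hev2 : MvPolynomial.aeval f Qm
      = ∑ α ∈ Qm.support, algebraMap K Q (MvPolynomial.coeff α Qm) * ∏ i, f i ^ α i := by
    rw [MvPolynomial.aeval_def, MvPolynomial.eval₂_eq']
  have h1 := hu m
  have h2 : f l ^ d * (∑ α ∈ Qm.support, algebraMap K Q (MvPolynomial.coeff α Qm) * c α)
      = c (Finsupp.single l d) * (f l * MvPolynomial.aeval f (MvPolynomial.pderiv m F)) := by
    rw [← hev, hev2, Finset.mul_sum, Finset.mul_sum]
    apply Finset.sum_congr rfl
    intro α hα
    have hαd : ∑ i, α i = d := by
      have h3 := hQmd (MvPolynomial.mem_support_iff.mp hα)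
      rw [← h3, Finsupp.weight_apply, Finsupp.sum_fintype]
      · simp
      · simp
    have h4 := key _ α hαd rfl
    calc f l ^ d * (algebraMap K Q (MvPolynomial.coeff α Qm) * c α)
        = algebraMap K Q (MvPolynomial.coeff α Qm) * (f l ^ d * c α) := by ring
      _ = _ := by rw [h4]; ring
  have h3 : f l * (f l ^ d * lam m) = f l * (- c (Finsupp.single l d) *
      MvPolynomial.aeval f (MvPolynomial.pderiv m F)) := by
    have h4 : f l ^ d * (f l * lam m + ∑ α ∈ Qm.support,
        algebraMap K Q (MvPolynomial.coeff α Qm) * c α) = 0 := by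
      rw [h1, mul_zero]
    rw [mul_add, h2] at h4
    linear_combination h4
  have h5 := mul_left_cancel₀ hl h3
  field_simp
  linear_combination h5

/-- the gradient of `F` along the curve `f` -/
noncomputable def Gr {K : Type*} [Field K] {N : ℕ} (F : MvPolynomial (Fin N) K) (f : Fin N → K[X])
    (i : Fin N) : K[X] :=
  MvPolynomial.aeval f (MvPolynomial.pderiv i F)

section

variable {K : Type*} [Field K] {N d e : ℕ} {F : MvPolynomial (Fin N) K} {f : Fin N → K[X]}
  {h : (Fin N →₀ ℕ) → Fin N → K[X]}

lemma single_sum (i : Fin N) (d : ℕ) : ∑ j, (Finsupp.single i d : Fin N →₀ ℕ) j = d := by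
  rw [Finset.sum_eq_single i]
  · simp
  · intro j _ hj
    rw [Finsupp.single_apply, if_neg (fun h => hj h.symm)]
  · simp

lemma single_prod (f : Fin N → K[X]) (i : Fin N) (d : ℕ) :
    ∏ j, f j ^ ((Finsupp.single i d : Fin N →₀ ℕ) j) = f i ^ d := by
  rw [Finset.prod_eq_single i]
  · simp
  · intro j _ hj
    rw [Finsupp.single_apply, if_neg (fun h => hj h.symm), pow_zero]
  · simp

lemma gr_degree (he : 1 ≤ e) (hd : 1 ≤ d) (i₀ : Fin N) (hi₀ : (f i₀).natDegree = e)
    (hh : ∀ α : Fin N →₀ ℕ, ∑ i, α i = d → ∀ i, (h α i).natDegree ≤ e)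
    (hrel : ∀ α : Fin N →₀ ℕ, ∑ i, α i = d → (∏ i, f i ^ α i) + ∑ i, Gr F f i * h α i = 0) :
    ∃ j, e * (d - 1) ≤ (Gr F f j).natDegree := by
  by_contra hcon
  push Not at hcon
  have h1 := hrel (Finsupp.single i₀ d) (single_sum i₀ d)
  rw [single_prod] at h1
  have h2 : (f i₀ ^ d).natDegree = d * e := by rw [natDegree_pow, hi₀]
  have h3 : (∑ i, Gr F f i * h (Finsupp.single i₀ d) i).natDegree ≤ (e * (d - 1) - 1) + e := by
    apply natDegree_sum_le_of_forall_le
    intro i _
    refine natDegree_mul_le.trans ?_
    have h4 := hcon i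
    have h5 := hh (Finsupp.single i₀ d) (single_sum i₀ d) i
    omega
  have h4 : f i₀ ^ d = - ∑ i, Gr F f i * h (Finsupp.single i₀ d) i := by linear_combination h1
  rw [h4, natDegree_neg] at h2
  have h5 := hcon i₀
  have h6 : e * (d - 1) + e = d * e := by
    obtain ⟨d', rfl⟩ : ∃ d', d = d' + 1 := ⟨d - 1, by omega⟩
    rw [Nat.add_sub_cancel]; ring
  omega

lemma gr_prim (hprim : ∀ p : K[X], (∀ i, p ∣ f i) → IsUnit p)
    (hrel : ∀ α : Fin N →₀ ℕ, ∑ i, α i = d → (∏ i, f i ^ α i) + ∑ i, Gr F f i * h α i = 0)
    (p : K[X]) (hp : ∀ i, p ∣ Gr F f i) : IsUnit p := by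
  have hdvd : ∀ i, p ∣ f i ^ d := by
    intro i
    have h1 := hrel (Finsupp.single i d) (single_sum i d)
    rw [single_prod] at h1
    have h4 : f i ^ d = - ∑ k, Gr F f k * h (Finsupp.single i d) k := by linear_combination h1
    rw [h4]
    exact (Finset.dvd_sum fun k _ => (hp k).mul_right _).neg_right
  by_contra hu
  by_cases hp0 : p = 0
  · apply hu
    apply hprim
    intro i
    have h1 := hdvd i
    rw [hp0, zero_dvd_iff] at h1
    rw [hp0, zero_dvd_iff]
    exact (by simpa using h1 : f i = 0 ∧ d ≠ 0).1
  · obtain ⟨q, hq, hqp⟩ := WfDvdMonoid.exists_irreducible_factor hu hp0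
    apply hq.not_isUnit
    apply hprim
    intro i
    exact hq.prime.dvd_of_dvd_pow (hqp.trans (hdvd i))

end

end Pool.Agent.H13.CEV
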